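import Pool.Agent.Y262.EG.Stm

set_option autoImplicit false

/-! Project EG: the forward estimate (FWD). -/

open Set Filter Topology MeasureTheory
open scoped ContDiff

noncomputable section

namespace Pool.Agent.Y832.EG

open Pool.Agent.Y262.EG

section

variable {P : Type} [MetricSpace P] [CompactSpace P] [MeasurableSpace P] [BorelSpace P]
  {m : Measure P} {Fl : ℝ → P → P} {Ac : (P → ℝ) → Prop} {dX dH dV : (P → ℝ) → P → ℝ} {k : P → ℝ}
  {c c1 s s1 : ℝ → P → ℝ}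

lemma int_cont [IsFiniteMeasure m] {h : P → ℝ} (hh : Continuous h) : Integrable h m :=
  hh.integrable_of_hasCompactSupport (HasCompactSupport.of_compactSpace h)

/-- bounds for the solution `y` -/
lemma y_bounds (hJ1 : StJac1) (hJ2 : StJac2) (pk : Pk m Fl Ac dX dH dV k c c1 s s1) {T : ℝ}
    (hT : 0 < T) (x : P) :
    (∀ t ∈ Icc 0 T, 0 ≤ yy c s T t x ∧ yy c s T t x ≤ 1) ∧
    ∀ t, 1 ≤ t → t ≤ T → |c1 t x + uu c s T x * s1 t x| ≤ yy c s T (t - 1) x := by
  obtain ⟨-, -, -, h1⟩ := hJ1 _ _ _ _ _ (pk.jac x) (fun t => pk.k0 _)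
  have h1 := h1 T (uu c s T x) (fun t => yy c s T t x) (fun t => c1 t x + uu c s T x * s1 t x) hT
    rfl (fun t => rfl) (fun t => rfl)
  have h2 := hJ2 _ _ _ _ _ (pk.jac x) (fun t => pk.k0 _) T (uu c s T x) (fun t => yy c s T t x)
    (fun t => c1 t x + uu c s T x * s1 t x) hT rfl (fun t => rfl) (fun t => rfl)
  refine ⟨fun t ht => ?_, fun t ht1 ht2 => h2.2.2.2 t ht1 ht2⟩
  have h3 := h1.2.1 t ht
  exact ⟨h3.1, h3.2.1⟩

lemma yy_cont (pk : Pk m Fl Ac dX dH dV k c c1 s s1) {T : ℝ} (hT : T ≠ 0) (t : ℝ) :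
    Continuous (yy c s T t) := by
  unfold yy
  have h1 : Continuous (uu c s T) := pk.ct _ (pk.uA T hT).1
  have h2 : Continuous fun x => c t x :=
    pk.jc.1.comp (by fun_prop : Continuous fun x : P => ((t, x) : ℝ × P))
  have h3 : Continuous fun x => s t x :=
    pk.jc.2.2.1.comp (by fun_prop : Continuous fun x : P => ((t, x) : ℝ × P))
  exact h2.add (h1.mul h3)

/-- the average of `y` tends to zero -/
lemma y_tendsto (hJ1 : StJac1) (hJ2 : StJac2) (pk : Pk m Fl Ac dX dH dV k c c1 s s1)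
    (htail : ∀ᵐ x ∂m, ∀ ε : ℝ, 0 < ε → ∃ t0 : ℝ, ∀ t T : ℝ, t0 ≤ t → t ≤ T → yy c s T t x ≤ ε) :
    Tendsto (fun T : ℝ => ∫ x, (yy c s T (T / 2) x + yy c s T (T / 2 - 1) x) ∂m) atTop (𝓝 0) := by
  haveI := pk.fin
  have h0 : (0 : ℝ) = ∫ _x : P, (0 : ℝ) ∂m := by simp
  rw [h0]
  refine tendsto_integral_filter_of_dominated_convergence (fun _ => 2) ?_ ?_
    (integrable_const _) ?_
  · filter_upwards [eventually_ge_atTop 2] with T hT
    exact ((yy_cont pk (by linarith) _).add (yy_cont pk (by linarith) _)).aestronglyMeasurable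
  · filter_upwards [eventually_ge_atTop 2] with T hT
    refine Eventually.of_forall fun x => ?_
    have h1 := (y_bounds hJ1 hJ2 pk (by linarith : 0 < T) x).1 (T / 2) ⟨by linarith, by linarith⟩
    have h2 := (y_bounds hJ1 hJ2 pk (by linarith : 0 < T) x).1 (T / 2 - 1)
      ⟨by linarith, by linarith⟩
    rw [Real.norm_eq_abs, abs_le]
    constructor <;> linarith [h1.1, h1.2, h2.1, h2.2]
  · filter_upwards [htail] with x hx
    rw [Metric.tendsto_atTop]
    intro ε hε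
    obtain ⟨t0, ht0⟩ := hx (ε / 3) (by positivity)
    refine ⟨max 2 (2 * (t0 + 1)), fun T hT => ?_⟩
    have hT2 : 2 ≤ T := (le_max_left _ _).trans hT
    have hT3 : 2 * (t0 + 1) ≤ T := (le_max_right _ _).trans hT
    have h1 := (y_bounds hJ1 hJ2 pk (by linarith : 0 < T) x).1 (T / 2) ⟨by linarith, by linarith⟩
    have h2 := (y_bounds hJ1 hJ2 pk (by linarith : 0 < T) x).1 (T / 2 - 1)
      ⟨by linarith, by linarith⟩
    have h3 := ht0 (T / 2) T (by linarith) (by linarith)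
    have h4 := ht0 (T / 2 - 1) T (by linarith) (by linarith)
    rw [Real.dist_eq, sub_zero, abs_lt]
    constructor <;> linarith [h1.1, h2.1]

/-- the second moment of `D` -/
lemma D_bound (pk : Pk m Fl Ac dX dH dV k c c1 s s1) {ψ u : P → ℝ} {C C2 : ℝ} (hψ : Ac ψ)
    (hψC : ∀ x, |ψ x| ≤ C) (hψ2 : ∫ x, ((dH ψ x) ^ 2 + (dV ψ x) ^ 2) ∂m ≤ C) (hu : Ac u)
    (huC : ∀ x, |u x| ≤ C2) (hu2 : ∫ x, ((dH u x) ^ 2 + (dV u x) ^ 2) ∂m ≤ C2) :
    ∫ x, (dH ψ x + dV (fun x => u x * ψ x) x) ^ 2 ∂m ≤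
      3 * (C + C ^ 2 * C2 + C2 ^ 2 * C) := by
  haveI := pk.fin
  have cH : Continuous (dH ψ) := pk.dvH.ct _ hψ
  have cV : Continuous (dV ψ) := pk.dvV.ct _ hψ
  have cHu : Continuous (dH u) := pk.dvH.ct _ hu
  have cVu : Continuous (dV u) := pk.dvV.ct _ hu
  have huψ : Ac fun x => u x * ψ x := pk.mul _ _ hu hψ
  have cuψ : Continuous (dV fun x => u x * ψ x) := pk.dvV.ct _ huψ
  have e1 : ∀ x, (dH ψ x + dV (fun x => u x * ψ x) x) ^ 2 ≤
      3 * ((dH ψ x) ^ 2 + (dV ψ x) ^ 2) + (3 * C ^ 2) * ((dH u x) ^ 2 + (dV u x) ^ 2) +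
        (3 * C2 ^ 2) * ((dH ψ x) ^ 2 + (dV ψ x) ^ 2) := by
    intro x
    rw [pk.dvV.mul _ _ hu hψ]
    have h1 : (dV u x * ψ x) ^ 2 ≤ C ^ 2 * (dV u x) ^ 2 := by
      rw [mul_pow, mul_comm]
      have : ψ x ^ 2 ≤ C ^ 2 := by
        rw [← sq_abs (ψ x)]
        exact pow_le_pow_left₀ (abs_nonneg _) (hψC x) 2
      exact mul_le_mul_of_nonneg_right this (sq_nonneg _)
    have h2 : (u x * dV ψ x) ^ 2 ≤ C2 ^ 2 * (dV ψ x) ^ 2 := by
      rw [mul_pow]
      have : u x ^ 2 ≤ C2 ^ 2 := by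
        rw [← sq_abs (u x)]
        exact pow_le_pow_left₀ (abs_nonneg _) (huC x) 2
      exact mul_le_mul_of_nonneg_right this (sq_nonneg _)
    have h3 : (dH ψ x + (dV u x * ψ x + u x * dV ψ x)) ^ 2 ≤
        3 * ((dH ψ x) ^ 2 + (dV u x * ψ x) ^ 2 + (u x * dV ψ x) ^ 2) := by
      nlinarith [sq_nonneg (dH ψ x - dV u x * ψ x), sq_nonneg (dH ψ x - u x * dV ψ x),
        sq_nonneg (dV u x * ψ x - u x * dV ψ x)]
    nlinarith [sq_nonneg (dV ψ x), mul_nonneg (sq_nonneg C) (sq_nonneg (dH u x)),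
      mul_nonneg (sq_nonneg C2) (sq_nonneg (dH ψ x))]
  have i1 : Integrable (fun x => (dH ψ x) ^ 2 + (dV ψ x) ^ 2) m := int_cont (by fun_prop)
  have i2 : Integrable (fun x => (dH u x) ^ 2 + (dV u x) ^ 2) m := int_cont (by fun_prop)
  calc ∫ x, (dH ψ x + dV (fun x => u x * ψ x) x) ^ 2 ∂m ≤
        ∫ x, (3 * ((dH ψ x) ^ 2 + (dV ψ x) ^ 2) + (3 * C ^ 2) * ((dH u x) ^ 2 + (dV u x) ^ 2) +
        (3 * C2 ^ 2) * ((dH ψ x) ^ 2 + (dV ψ x) ^ 2)) ∂m := by
        refine integral_mono (int_cont (by fun_prop)) (int_cont (by fun_prop)) e1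
    _ = 3 * ∫ x, ((dH ψ x) ^ 2 + (dV ψ x) ^ 2) ∂m +
        (3 * C ^ 2) * ∫ x, ((dH u x) ^ 2 + (dV u x) ^ 2) ∂m +
        (3 * C2 ^ 2) * ∫ x, ((dH ψ x) ^ 2 + (dV ψ x) ^ 2) ∂m := by
        have a1 : Integrable (fun x => 3 * ((dH ψ x) ^ 2 + (dV ψ x) ^ 2)) m := i1.const_mul 3
        have a2 : Integrable (fun x => (3 * C ^ 2) * ((dH u x) ^ 2 + (dV u x) ^ 2)) m :=
          i2.const_mul (3 * C ^ 2)
        have a3 : Integrable (fun x => (3 * C2 ^ 2) * ((dH ψ x) ^ 2 + (dV ψ x) ^ 2)) m :=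
          i1.const_mul (3 * C2 ^ 2)
        have a12 : Integrable (fun x => 3 * ((dH ψ x) ^ 2 + (dV ψ x) ^ 2) +
          (3 * C ^ 2) * ((dH u x) ^ 2 + (dV u x) ^ 2)) m := a1.add a2
        rw [integral_add a12 a3, integral_add a1 a2, integral_const_mul, integral_const_mul,
          integral_const_mul]
    _ ≤ 3 * C + (3 * C ^ 2) * C2 + (3 * C2 ^ 2) * C := by
        gcongr
    _ = 3 * (C + C ^ 2 * C2 + C2 ^ 2 * C) := by ring

/-- integration by parts -/
lemma main_part (hJ1 : StJac1) (hJ2 : StJac2) (pk : Pk m Fl Ac dX dH dV k c c1 s s1)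
    {ψ g : P → ℝ} {C Cg T : ℝ} (hT : 2 ≤ T) (hψ : Ac ψ) (hψC : ∀ x, |ψ x| ≤ C) (hg : Ac g)
    (hgH : ∀ x, |dH g x| ≤ Cg) (hgV : ∀ x, |dV g x| ≤ Cg) :
    |∫ x, g (Fl (T / 2) x) * (dH ψ x + dV (fun x => uu c s T x * ψ x) x) ∂m| ≤
      C * Cg * ∫ x, (yy c s T (T / 2) x + yy c s T (T / 2 - 1) x) ∂m := by
  haveI := pk.fin
  have hT0 : T ≠ 0 := by linarith
  obtain ⟨hG, hGd⟩ := pk.cmp g hg (T / 2)
  set G : P → ℝ := fun x => g (Fl (T / 2) x) with hGdef
  set u : P → ℝ := uu c s T with hu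
  have huA : Ac u := (pk.uA T hT0).1
  have huψ : Ac fun x => u x * ψ x := pk.mul _ _ huA hψ
  have cG : Continuous G := pk.ct _ hG
  have cψ : Continuous ψ := pk.ct _ hψ
  have cu : Continuous u := pk.ct _ huA
  have cHG : Continuous (dH G) := pk.dvH.ct _ hG
  have cVG : Continuous (dV G) := pk.dvV.ct _ hG
  have cHψ : Continuous (dH ψ) := pk.dvH.ct _ hψ
  have cVuψ : Continuous (dV fun x => u x * ψ x) := pk.dvV.ct _ huψ
  have b1 : ∫ x, (dH G x * ψ x + G x * dH ψ x) ∂m = 0 := by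
    have := pk.dvH.ibp _ (pk.mul _ _ hG hψ)
    rw [← this]
    exact integral_congr_ae (Eventually.of_forall fun x => (pk.dvH.mul _ _ hG hψ x).symm)
  have b2 : ∫ x, (dV G x * (u x * ψ x) + G x * dV (fun x => u x * ψ x) x) ∂m = 0 := by
    have := pk.dvV.ibp _ (pk.mul _ _ hG huψ)
    rw [← this]
    exact integral_congr_ae (Eventually.of_forall fun x => (pk.dvV.mul _ _ hG huψ x).symm)
  have e1 : ∫ x, G x * (dH ψ x + dV (fun x => u x * ψ x) x) ∂m =
      -∫ x, ψ x * (dH G x + u x * dV G x) ∂m := by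
    have h3 : ∫ x, (G x * (dH ψ x + dV (fun x => u x * ψ x) x) +
        ψ x * (dH G x + u x * dV G x)) ∂m = 0 := by
      have h4 : ∫ x, ((dH G x * ψ x + G x * dH ψ x) +
          (dV G x * (u x * ψ x) + G x * dV (fun x => u x * ψ x) x)) ∂m = 0 := by
        rw [integral_add (int_cont (by fun_prop)) (int_cont (by fun_prop)), b1, b2, add_zero]
      rw [← h4]
      refine integral_congr_ae (Eventually.of_forall fun x => ?_)
      simp only
      ring
    rw [integral_add (int_cont (by fun_prop)) (int_cont (by fun_prop))] at h3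
    linarith
  rw [e1, abs_neg]
  have hpt : ∀ x, |ψ x * (dH G x + u x * dV G x)| ≤
      C * Cg * (yy c s T (T / 2) x + yy c s T (T / 2 - 1) x) := by
    intro x
    obtain ⟨-, hV, hH⟩ := hGd x
    have hy := y_bounds hJ1 hJ2 pk (by linarith : 0 < T) x
    have hy0 := hy.1 (T / 2) ⟨by linarith, by linarith⟩
    have hy1 := hy.2 (T / 2) (by linarith) (by linarith)
    have e2 : dH G x + u x * dV G x = yy c s T (T / 2) x * dH g (Fl (T / 2) x) +
        (c1 (T / 2) x + uu c s T x * s1 (T / 2) x) * dV g (Fl (T / 2) x) := by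
      rw [hGdef, hH, hV]
      unfold yy
      ring
    rw [abs_mul, e2]
    have h5 : |yy c s T (T / 2) x * dH g (Fl (T / 2) x) +
        (c1 (T / 2) x + uu c s T x * s1 (T / 2) x) * dV g (Fl (T / 2) x)| ≤
        Cg * (yy c s T (T / 2) x + yy c s T (T / 2 - 1) x) := by
      calc _ ≤ |yy c s T (T / 2) x * dH g (Fl (T / 2) x)| +
            |(c1 (T / 2) x + uu c s T x * s1 (T / 2) x) * dV g (Fl (T / 2) x)| := abs_add_le _ _
        _ = yy c s T (T / 2) x * |dH g (Fl (T / 2) x)| +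
            |c1 (T / 2) x + uu c s T x * s1 (T / 2) x| * |dV g (Fl (T / 2) x)| := by
            rw [abs_mul, abs_mul, abs_of_nonneg hy0.1]
        _ ≤ yy c s T (T / 2) x * Cg + yy c s T (T / 2 - 1) x * Cg := by
            refine add_le_add (mul_le_mul_of_nonneg_left (hgH _) hy0.1)
              (mul_le_mul hy1 (hgV _) (abs_nonneg _) ((abs_nonneg _).trans hy1))
        _ = _ := by ring
    have hC0 : 0 ≤ C := (abs_nonneg _).trans (hψC x)
    calc |ψ x| * |yy c s T (T / 2) x * dH g (Fl (T / 2) x) +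
        (c1 (T / 2) x + uu c s T x * s1 (T / 2) x) * dV g (Fl (T / 2) x)| ≤
          C * (Cg * (yy c s T (T / 2) x + yy c s T (T / 2 - 1) x)) :=
          mul_le_mul (hψC x) h5 (abs_nonneg _) hC0
      _ = _ := by ring
  have cy1 := yy_cont pk hT0 (T / 2)
  have cy2 := yy_cont pk hT0 (T / 2 - 1)
  calc |∫ x, ψ x * (dH G x + u x * dV G x) ∂m| ≤ ∫ x, |ψ x * (dH G x + u x * dV G x)| ∂m :=
        abs_integral_le_integral_abs
    _ ≤ ∫ x, C * Cg * (yy c s T (T / 2) x + yy c s T (T / 2 - 1) x) ∂m :=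
        integral_mono (int_cont (by fun_prop)) (int_cont (by fun_prop)) hpt
    _ = _ := integral_const_mul _ _

end

/-- FWD -/
theorem fwd (hJ1 : StJac1) (hJ2 : StJac2) (hTail : StTail) (hL2 : StL2) : StFwd := by
  intro P _ _ _ _ m Fl Ac dX dH dV k c c1 s s1 pk f hf ⟨Cf, hCf⟩ hinv ψ C hψ
  haveI := pk.fin
  obtain ⟨C2, hC2⟩ := hL2 P m Fl Ac dX dH dV k c c1 s s1 pk
  obtain ⟨-, htail⟩ := hTail P m Fl Ac dX dH dV k c c1 s s1 pk
  have hlim := y_tendsto hJ1 hJ2 pk htail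
  obtain ⟨K, hK0, hK⟩ : ∃ K : ℝ, 0 ≤ K ∧ 3 * (C + C ^ 2 * C2 + C2 ^ 2 * C) ≤ K :=
    ⟨|3 * (C + C ^ 2 * C2 + C2 ^ 2 * C)|, abs_nonneg _, le_abs_self _⟩
  rw [Metric.tendsto_atTop]
  intro η hη
  -- the size of the approximation
  set ε : ℝ := η / (2 * (1 + K)) with hε
  have hε0 : 0 < ε := by positivity
  obtain ⟨g, hg, hfg⟩ := pk.dens f hf ⟨Cf, hCf⟩ (ε ^ 2) (by positivity)
  have cgH : Continuous (dH g) := pk.dvH.ct _ hg
  have cgV : Continuous (dV g) := pk.dvV.ct _ hg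
  have cg : Continuous g := pk.ct _ hg
  obtain ⟨A1, hA1⟩ := isCompact_univ.exists_bound_of_continuousOn cgH.continuousOn
  obtain ⟨A2, hA2⟩ := isCompact_univ.exists_bound_of_continuousOn cgV.continuousOn
  obtain ⟨A3, hA3⟩ := isCompact_univ.exists_bound_of_continuousOn cg.continuousOn
  set Cg : ℝ := max A1 A2 with hCg
  have hgH : ∀ x, |dH g x| ≤ Cg := fun x => (hA1 x (mem_univ x)).trans (le_max_left _ _)
  have hgV : ∀ x, |dV g x| ≤ Cg := fun x => (hA2 x (mem_univ x)).trans (le_max_right _ _)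
  have hlim2 := hlim.const_mul (C * Cg)
  rw [mul_zero] at hlim2
  obtain ⟨T1, hT1⟩ := (Metric.tendsto_atTop.1 hlim2) (η / 2) (by positivity)
  refine ⟨max 2 T1, fun T hT => ?_⟩
  have hT2 : 2 ≤ T := (le_max_left _ _).trans hT
  have hT3 : T1 ≤ T := (le_max_right _ _).trans hT
  have hT0 : T ≠ 0 := by linarith
  obtain ⟨hψA, hψC, hψ2⟩ := hψ T (by linarith)
  obtain ⟨huC, hu2⟩ := hC2 T (by linarith)
  have huA : Ac (uu c s T) := (pk.uA T hT0).1
  have hD2 := (D_bound pk hψA hψC hψ2 huA huC hu2).trans hK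
  have hmain := main_part hJ1 hJ2 pk hT2 hψA hψC hg hgH hgV
  have huψ : Ac fun x => uu c s T x * ψ T x := pk.mul _ _ huA hψA
  have cHψ : Continuous (dH (ψ T)) := pk.dvH.ct _ hψA
  have cVuψ : Continuous (dV fun x => uu c s T x * ψ T x) := pk.dvV.ct _ huψ
  set D : P → ℝ := fun x => dH (ψ T) x + dV (fun x => uu c s T x * ψ T x) x with hD
  have cD : Continuous D := cHψ.add cVuψ
  have hFlc : Continuous (Fl (T / 2)) :=
    pk.flc.comp (by fun_prop : Continuous fun x : P => ((T / 2, x) : ℝ × P))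
  have cG : Continuous fun x => g (Fl (T / 2) x) := cg.comp hFlc
  have iD : Integrable D m := int_cont cD
  have if1 : Integrable (fun x => f x * D x) m :=
    iD.bdd_mul hf.aestronglyMeasurable (Eventually.of_forall fun x => by
      rw [Real.norm_eq_abs]; exact hCf x)
  have iG : Integrable (fun x => g (Fl (T / 2) x) * D x) m := int_cont (cG.mul cD)
  have hsplit : ∫ x, f x * D x ∂m = ∫ x, g (Fl (T / 2) x) * D x ∂m +
      ∫ x, (f x - g (Fl (T / 2) x)) * D x ∂m := by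
    rw [← integral_add iG]
    · refine integral_congr_ae (Eventually.of_forall fun x => ?_)
      simp only
      ring
    · have : (fun x => (f x - g (Fl (T / 2) x)) * D x) =
          fun x => f x * D x - g (Fl (T / 2) x) * D x := by
        funext x; ring
      rw [this]
      exact if1.sub iG
  -- the error
  have hsq : ∫ x, (f x - g (Fl (T / 2) x)) ^ 2 ∂m ≤ ε ^ 2 := by
    have h1 : ∫ x, (f (Fl (T / 2) x) - g (Fl (T / 2) x)) ^ 2 ∂m = ∫ x, (f x - g x) ^ 2 ∂m := by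
      have h2 := integral_map (μ := m) (φ := Fl (T / 2)) (pk.flm (T / 2)).measurable.aemeasurable
        (f := fun x => (f x - g x) ^ 2)
        ((hf.sub cg.measurable).pow_const 2).aestronglyMeasurable
      rw [(pk.flm (T / 2)).map_eq] at h2
      exact h2.symm
    have h3 : ∀ x, (f x - g (Fl (T / 2) x)) ^ 2 = (f (Fl (T / 2) x) - g (Fl (T / 2) x)) ^ 2 := by
      intro x
      rw [hinv]
    simp only [h3, h1]
    exact hfg
  have isq : Integrable (fun x => (f x - g (Fl (T / 2) x)) ^ 2) m := by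
    refine Integrable.of_bound
      ((hf.sub cG.measurable).pow_const 2).aestronglyMeasurable ((|Cf| + |A3|) ^ 2)
      (Eventually.of_forall fun x => ?_)
    rw [Real.norm_eq_abs, abs_pow]
    refine pow_le_pow_left₀ (abs_nonneg _) ?_ 2
    have h1 := hCf x
    have h2 := hA3 (Fl (T / 2) x) (mem_univ _)
    rw [Real.norm_eq_abs] at h2
    calc |f x - g (Fl (T / 2) x)| ≤ |f x| + |g (Fl (T / 2) x)| := abs_sub _ _
      _ ≤ |Cf| + |A3| := add_le_add (h1.trans (le_abs_self _)) (h2.trans (le_abs_self _))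
  have herr : |∫ x, (f x - g (Fl (T / 2) x)) * D x ∂m| ≤ ε * (1 + K) / 2 := by
    have hpt : ∀ x, |(f x - g (Fl (T / 2) x)) * D x| ≤
        (2 * ε)⁻¹ * (f x - g (Fl (T / 2) x)) ^ 2 + ε / 2 * (D x) ^ 2 := by
      intro x
      rw [abs_mul]
      have h1 : 0 ≤ (2 * ε)⁻¹ * (|f x - g (Fl (T / 2) x)| - ε * |D x|) ^ 2 := by positivity
      have h2 : (2 * ε)⁻¹ * (|f x - g (Fl (T / 2) x)| - ε * |D x|) ^ 2 =
          (2 * ε)⁻¹ * (f x - g (Fl (T / 2) x)) ^ 2 + ε / 2 * (D x) ^ 2 -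
            |f x - g (Fl (T / 2) x)| * |D x| := by
        rw [← sq_abs (f x - g (Fl (T / 2) x)), ← sq_abs (D x)]
        field_simp
        ring
      linarith
    calc |∫ x, (f x - g (Fl (T / 2) x)) * D x ∂m| ≤
          ∫ x, |(f x - g (Fl (T / 2) x)) * D x| ∂m := abs_integral_le_integral_abs
      _ ≤ ∫ x, ((2 * ε)⁻¹ * (f x - g (Fl (T / 2) x)) ^ 2 + ε / 2 * (D x) ^ 2) ∂m := by
          refine integral_mono_of_nonneg (Eventually.of_forall fun x => abs_nonneg _) ?_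
            (Eventually.of_forall hpt)
          exact (isq.const_mul _).add ((int_cont (cD.pow 2)).const_mul _)
      _ = (2 * ε)⁻¹ * ∫ x, (f x - g (Fl (T / 2) x)) ^ 2 ∂m + ε / 2 * ∫ x, (D x) ^ 2 ∂m := by
          have a1 : Integrable (fun x => (2 * ε)⁻¹ * (f x - g (Fl (T / 2) x)) ^ 2) m :=
            isq.const_mul (2 * ε)⁻¹
          have a2 : Integrable (fun x => ε / 2 * (D x) ^ 2) m := int_cont (by fun_prop)
          rw [integral_add a1 a2, integral_const_mul, integral_const_mul]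
      _ ≤ (2 * ε)⁻¹ * ε ^ 2 + ε / 2 * K := by
          refine add_le_add (mul_le_mul_of_nonneg_left hsq (by positivity))
            (mul_le_mul_of_nonneg_left hD2 (by positivity))
      _ = ε * (1 + K) / 2 := by
          field_simp
  have herr2 : ε * (1 + K) / 2 = η / 4 := by
    rw [hε]
    field_simp
    norm_num
  have hm := hT1 T hT3
  rw [Real.dist_eq, sub_zero] at hm
  have hm' := (le_abs_self _).trans_lt hm
  rw [Real.dist_eq, sub_zero]
  change |∫ x, f x * D x ∂m| < η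
  rw [hsplit]
  calc _ ≤ |∫ x, g (Fl (T / 2) x) * D x ∂m| + |∫ x, (f x - g (Fl (T / 2) x)) * D x ∂m| :=
        abs_add_le _ _
    _ < η / 2 + η / 2 := by
        have h1 := hmain.trans_lt hm'
        rw [herr2] at herr
        linarith
    _ = η := by ring

end Pool.Agent.Y832.EG
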