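import Pool.Agent.Y262.EG.Stm

set_option autoImplicit false

/-! Project EG: a bounded function with vanishing weak derivatives on a ball is constant (WEAK). -/

open Set Filter Topology MeasureTheory
open scoped ContDiff Convolution

noncomputable section

namespace Pool.Agent.Y832.EG

open Pool.Agent.Y262.EG

instance haarY : (volume : Measure Y).IsAddHaarMeasure :=
  inferInstanceAs (((volume : Measure ℂ).prod (volume : Measure ℝ)).IsAddHaarMeasure)

/-- the bumps -/
def bmp (n : ℕ) : ContDiffBump (0 : Y) where
  rIn := 1 / (2 * ((n : ℝ) + 1))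
  rOut := 1 / ((n : ℝ) + 1)
  rIn_pos := by positivity
  rIn_lt_rOut := by
    apply one_div_lt_one_div_of_lt (by positivity)
    have : (0 : ℝ) < (n : ℝ) + 1 := by positivity
    linarith

theorem weak : StWeak := by
  intro F p0 r C hr hF hC hw
  have hloc : LocallyIntegrable F volume :=
    (memLp_top_of_bound hF C (Eventually.of_forall fun p => by
      rw [Real.norm_eq_abs]; exact hC p)).locallyIntegrable le_top
  let Fn : ℕ → Y → ℝ := fun n =>
    ((bmp n).normed volume ⋆[ContinuousLinearMap.lsmul ℝ ℝ, volume] F)
  have hconv : ∀ᵐ x ∂(volume : Measure Y), Tendsto (fun n => Fn n x) atTop (𝓝 (F x)) := by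
    refine ContDiffBump.ae_convolution_tendsto_right_of_locallyIntegrable (φ := bmp) (l := atTop)
      (K := 2) ?_ (Eventually.of_forall fun n => ?_) hloc
    · exact tendsto_one_div_add_atTop_nhds_zero_nat
    · simp only [bmp]
      apply le_of_eq
      field_simp
  have key : ∀ n : ℕ, ∀ x ∈ Metric.ball p0 (r - 1 / ((n : ℝ) + 1)),
      ∀ y ∈ Metric.ball p0 (r - 1 / ((n : ℝ) + 1)), Fn n x = Fn n y := by
    intro n
    set ρ : Y → ℝ := (bmp n).normed volume with hρ
    have hρc : ContDiff ℝ 1 ρ := (bmp n).contDiff_normed
    have hρs : HasCompactSupport ρ := (bmp n).hasCompactSupport_normed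
    have hρd : Continuous (fderiv ℝ ρ) := hρc.continuous_fderiv one_ne_zero
    have hρt : tsupport ρ = Metric.closedBall 0 (1 / ((n : ℝ) + 1)) :=
      (bmp n).tsupport_normed_eq
    have hder : ∀ x ∈ Metric.ball p0 (r - 1 / ((n : ℝ) + 1)), HasFDerivAt (Fn n) (0 : Y →L[ℝ] ℝ) x := by
      intro x hx
      have h1 := hρs.hasFDerivAt_convolution_left (ContinuousLinearMap.lsmul ℝ ℝ) hρc hloc x
      have h2 : (fderiv ℝ ρ ⋆[(ContinuousLinearMap.lsmul ℝ ℝ).precompL Y, volume] F) x = 0 := by
        have hint := (hρs.fderiv (𝕜 := ℝ)).convolutionExists_left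
          ((ContinuousLinearMap.lsmul ℝ ℝ).precompL Y) hρd hloc x
        refine ContinuousLinearMap.ext fun e => ?_
        rw [convolution_def, ContinuousLinearMap.integral_apply hint]
        simp only [ContinuousLinearMap.precompL_apply, ContinuousLinearMap.lsmul_apply, smul_eq_mul]
        -- the test function
        set u : Y → ℝ := fun p => ρ (x - p) with hu
        have hu1 : ContDiff ℝ 1 u := hρc.comp (contDiff_const.sub contDiff_id)
        have huf : ∀ p v, fderiv ℝ u p v = -(fderiv ℝ ρ (x - p) v) := by
          intro p v
          have h3 : HasFDerivAt u ((fderiv ℝ ρ (x - p)).comp (-(ContinuousLinearMap.id ℝ Y))) p := by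
            have h4 : HasFDerivAt ρ (fderiv ℝ ρ (x - p)) (x - p) :=
              ((hρc.differentiable one_ne_zero) (x - p)).hasFDerivAt
            have h5 : HasFDerivAt (fun p : Y => x - p) (-(ContinuousLinearMap.id ℝ Y)) p := by
              simpa using (hasFDerivAt_id p).const_sub x
            exact h4.comp p h5
          rw [h3.fderiv]
          simp
        have husub : tsupport u ⊆ Metric.closedBall x (1 / ((n : ℝ) + 1)) := by
          apply closure_minimal _ Metric.isClosed_closedBall
          intro p hp
          have h3 : x - p ∈ tsupport ρ := subset_tsupport ρ hp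
          rw [hρt, mem_closedBall_zero_iff] at h3
          rw [Metric.mem_closedBall, dist_comm, dist_eq_norm]
          exact h3
        have hus : HasCompactSupport u :=
          (isCompact_closedBall x _).of_isClosed_subset (isClosed_tsupport u) husub
        have hub : tsupport u ⊆ Metric.ball p0 r := by
          refine husub.trans fun p hp => ?_
          rw [Metric.mem_ball] at hx ⊢
          rw [Metric.mem_closedBall] at hp
          calc dist p p0 ≤ dist p x + dist x p0 := dist_triangle _ _ _
            _ < 1 / ((n : ℝ) + 1) + (r - 1 / ((n : ℝ) + 1)) := by linarith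
            _ = r := by ring
        obtain ⟨w1, w2, w3⟩ := hw u hu1 hus hub
        have hud : Continuous (fderiv ℝ u) := hu1.continuous_fderiv one_ne_zero
        have hI : ∀ v : Y, Integrable (fun p => F p * fderiv ℝ u p v) volume := by
          intro v
          have hc : Continuous fun p => fderiv ℝ u p v := hud.clm_apply continuous_const
          have hcs : HasCompactSupport fun p => fderiv ℝ u p v := by
            have := hus.fderiv (𝕜 := ℝ)
            exact this.comp_left (g := fun L : Y →L[ℝ] ℝ => L v) rfl
          exact (hc.integrable_of_hasCompactSupport hcs).bdd_mul hF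
            (Eventually.of_forall fun p => by
              rw [Real.norm_eq_abs]; exact hC p)
        have hall : ∫ p, F p * fderiv ℝ u p e = 0 := by
          have he : e = e.1.re • ((1 : ℂ), (0 : ℝ)) + e.1.im • (Complex.I, (0 : ℝ)) +
              e.2 • ((0 : ℂ), (1 : ℝ)) := by
            ext <;> simp
          have e2 : ∀ p, F p * fderiv ℝ u p e = e.1.re * (F p * fderiv ℝ u p ((1 : ℂ), (0 : ℝ))) +
              e.1.im * (F p * fderiv ℝ u p (Complex.I, (0 : ℝ))) +
              e.2 * (F p * fderiv ℝ u p ((0 : ℂ), (1 : ℝ))) := by
            intro p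
            conv_lhs => rw [he]
            rw [map_add, map_add, map_smul, map_smul, map_smul]
            simp only [smul_eq_mul]
            ring
          simp only [e2]
          rw [integral_add, integral_add, integral_const_mul, integral_const_mul,
            integral_const_mul, w1, w2, w3]
          · ring
          · exact (hI _).const_mul _
          · exact (hI _).const_mul _
          · exact ((hI _).const_mul _).add ((hI _).const_mul _)
          · exact (hI _).const_mul _
        have h3 : ∫ t, fderiv ℝ ρ t e * F (x - t) = ∫ p, fderiv ℝ ρ (x - p) e * F p := by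
          have h4 := integral_sub_left_eq_self (fun p => fderiv ℝ ρ (x - p) e * F p)
            (volume : Measure Y) x
          simp only [sub_sub_cancel] at h4
          exact h4
        rw [h3, ContinuousLinearMap.zero_apply]
        have h4 : ∀ p, fderiv ℝ ρ (x - p) e * F p = -(F p * fderiv ℝ u p e) := by
          intro p
          rw [huf]
          ring
        simp only [h4]
        rw [integral_neg, hall, neg_zero]
      rw [h2] at h1
      exact h1
    intro x hx y hy
    have h3 := (convex_ball p0 (r - 1 / ((n : ℝ) + 1))).norm_image_sub_le_of_norm_hasFDerivWithin_le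
      (f := Fn n) (f' := fun _ => 0) (C := 0) (fun z hz => (hder z hz).hasFDerivWithinAt)
      (fun z _ => by simp) hx hy
    rw [zero_mul] at h3
    exact (sub_eq_zero.1 (norm_le_zero_iff.1 h3)).symm
  -- conclusion
  have hconst : ∀ x ∈ Metric.ball p0 r, ∀ y ∈ Metric.ball p0 r,
      Tendsto (fun n => Fn n x) atTop (𝓝 (F x)) → Tendsto (fun n => Fn n y) atTop (𝓝 (F y)) →
      F x = F y := by
    intro x hx y hy h1 h2
    refine tendsto_nhds_unique_of_eventuallyEq h1 h2 ?_
    have hsmall : ∀ z ∈ Metric.ball p0 r, ∀ᶠ n : ℕ in atTop,
        z ∈ Metric.ball p0 (r - 1 / ((n : ℝ) + 1)) := by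
      intro z hz
      rw [Metric.mem_ball] at hz
      have h3 : ∀ᶠ n : ℕ in atTop, 1 / ((n : ℝ) + 1) < r - dist z p0 :=
        (tendsto_order.1 tendsto_one_div_add_atTop_nhds_zero_nat).2 _ (by linarith)
      filter_upwards [h3] with n hn
      rw [Metric.mem_ball]
      linarith
    filter_upwards [hsmall x hx, hsmall y hy] with n hnx hny
    exact key n x hnx y hny
  by_cases hex : ∃ p ∈ Metric.ball p0 r, Tendsto (fun n => Fn n p) atTop (𝓝 (F p))
  · obtain ⟨p, hp, hpt⟩ := hex
    refine ⟨F p, ?_⟩
    rw [ae_restrict_iff' Metric.isOpen_ball.measurableSet]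
    filter_upwards [hconv] with x hx hxb
    exact hconst x hxb p hp hx hpt
  · refine ⟨0, ?_⟩
    rw [ae_restrict_iff' Metric.isOpen_ball.measurableSet]
    filter_upwards [hconv] with x hx hxb
    exact absurd ⟨x, hxb, hx⟩ hex

end Pool.Agent.Y832.EG
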